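import Pool.Agent.Q101.IlE

/-!
# Interlaced subsequences of the basis of `X^n_{0,1}` need not be equivalent

Full answer (negative) to the question.  For `n = 1` the sequences `j_0 = 100`, `i_m = j_m ^ 3`,
`j_{m+1} = i_m ^ 3` interlace, and `(e_{i_m})`, `(e_{j_m})` are not equivalent.

Proof outline (files `Pool/Agent/Q101/Il*`).  Blocks of order `k` starting at the index `a`:
`T_0 = e_a`, `T_{k+1} = e_a + (1 / i_a) (G_1 + ... + G_Q)`, `Q = i_a - 1`, where `G_q` is a sum of
`i_{a_q - 1} + 1` consecutive blocks of order `k` starting at the index `a_q`.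

* Put at the places `i_m`, `T_k` has norm at least `1 + k / 4`: the Schreier functional made of
  the average `(1/2) e_{i_a}` of size `2` and of one average of size `i_{a_q - 1} + 1` for each `q`
  is admissible, since it has `i_a` members (`lower`).
* Put at the places `j_m`, `T_k` has norm at most `1 + 8 / j_a`: a Schreier functional which
  touches the first coordinate `e_{j_a}` has at most `j_a` members, much less than `i_a`, and sees
  only a small part of the rest (`blk_bound`).
-/

set_option autoImplicit false

namespace Pool.Agent.Results.MP_7cd5bf_an.InterlacedNotEquivalent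

open Q101.Il

/-- There are `n ≥ 1` (namely `n = 1`) and increasing sequences of positive integers `i`, `j` with
`i_m < j_{m+1}` and `j_m < i_{m+1}` for all `m` such that the subsequences `(e_{i_m})` and
`(e_{j_m})` of the unit vector basis of `X^n_{0,1}` are not equivalent. -/
theorem result :
    ∃ (n : ℕ) (i j : ℕ → ℕ), 1 ≤ n ∧ StrictMono i ∧ StrictMono j ∧
      (∀ m, 1 ≤ i m ∧ 1 ≤ j m) ∧ (∀ m, i m < j (m + 1) ∧ j m < i (m + 1)) ∧
      ¬ SeqEquiv n (fun m => Finsupp.single (i m) (1 : ℝ))
        (fun m => Finsupp.single (j m) (1 : ℝ)) := by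
  refine ⟨1, ii, jj, le_rfl, ii_mono, jj_mono, fun m => ?_, fun m => ⟨ii_lt_jj m, ?_⟩, not_equiv⟩
  · have h1 := jj_ge m
    have h2 := jj_lt_ii m
    omega
  · exact (jj_lt_ii m).trans (ii_mono (Nat.lt_succ_self m))

end Pool.Agent.Results.MP_7cd5bf_an.InterlacedNotEquivalent
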